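import Pool.Agent.X290.TwDef

/-!
# A positive proportion of nonvanishing quadratic twists is not always there

There is an odd Hecke-Maass cusp form `f` for `SL₂(ℤ)` (its existence is proved here, with the
spectral theorem for an integral operator on the odd part of `L²(SL₂(ℤ) \ ℍ)`). It generates a
cuspidal automorphic representation `π'` of `PGL₂(𝔸)` all of whose local components are principal
series, and the root number of every quadratic twist of `π'` is `-1`. So all the central values
`L(1/2, π' ⊗ η_E)` vanish, and `N_{π'}(x) = 0` for every `x`.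
-/

set_option autoImplicit false

namespace Pool.Agent.Results.MP_5f72fe_nt.OddMaassWeak

open Pool.Agent.X290 Filter Topology

theorem result : ∃ (f : ℂ → ℂ) (mu : ℂ) (a : ℕ → ℂ), OddHM f mu a ∧
    (∀ E : QField, ∃ L, IsTwistedL a E L ∧ L (1 / 2) = 0 ∧ ∀ L', IsTwistedL a E L' → L' = L) ∧
    (∀ x : ℝ, numNonvanishing a x = 0) ∧
    ¬ ∃ c : ℝ, 0 < c ∧ ∀ᶠ x : ℝ in atTop, c * x ≤ numNonvanishing a x := by
  obtain ⟨f, mu, a, h⟩ := Exi.exists_oddHM
  refine ⟨f, mu, a, h, fun E => ?_, TwDef.numNonvanishing_eq_zero h, ?_⟩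
  · obtain ⟨L, h1, h2⟩ := TwDef.twist f mu a h E
    exact ⟨L, h1, h2, fun L' h' => TwDef.unique a E h1 h'⟩
  · rintro ⟨c, hc, hev⟩
    obtain ⟨x, hx, hx1⟩ := (hev.and (eventually_gt_atTop (0 : ℝ))).exists
    rw [TwDef.numNonvanishing_eq_zero h] at hx
    have := mul_pos hc hx1
    linarith

end Pool.Agent.Results.MP_5f72fe_nt.OddMaassWeak
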